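import Pool.Agent.Lib.MP_39d40e_nt.BdZ

namespace Pool.Agent.Lib.MP_39d40e_nt.Old.BasinDensity

open Finset Filter Topology Pool.Agent.Lib.MP_39d40e_nt

theorem result (d : ℕ) [NeZero d] (hd : 2 ≤ d) (m r b : ZMod d → ℤ) (a : ZMod d → ℕ)
    (hm : ∀ i, m i ≠ 0) (hr : ∀ i, (r i : ZMod d) = i * m i)
    (hfac : ∀ i, m i = b i * a i) (hb : ∀ i, IsCoprime (b i) d) (_ha : ∀ i, ∃ n, a i ∣ d ^ n)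
    (C : Finset (ℕ × ℕ)) (hC : ∀ s ∈ C, s.1 < d * s.2 ∧ ∃ n, s.2 ∣ d ^ n)
    (closed : ∀ s ∈ C, ∀ s', 0 < P d m r a s s' → s' ∈ C)
    (comm : ∀ s ∈ C, ∀ s' ∈ C, Relation.ReflTransGen (fun t t' => 0 < P d m r a t t') s s')
    (ρ : ℕ × ℕ → ℝ) (ρ_nonneg : ∀ s ∈ C, 0 ≤ ρ s) (ρ_sum : ∑ s ∈ C, ρ s = 1)
    (ρ_stat : ∀ s' ∈ C, ∑ s ∈ C, ρ s * P d m r a s s' = ρ s')
    (hΛ : ∏ i : ZMod d, |(m i : ℝ) / d| ^ (∑ s ∈ C with (s.1 : ZMod d) = i, ρ s) < 1)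
    (n : ℕ) (σ : ℕ → ℕ × ℕ) (hσ0 : σ 0 ∈ C) (hσn : σ n = σ 0)
    (hσ : ∀ t < n, 0 < P d m r a (σ t) (σ (t + 1)))
    (hexp : (d : ℤ) ^ n < ∏ t ∈ range n, |m (σ t).1|)
    (A : Set ℤ) (hA : {x : ℤ | (∃ s ∈ C, x ≡ s.1 [ZMOD (d * s.2 : ℕ)]) ∧
      ¬ (x ∈ A ↔ T d m r x ∈ A)}.Finite) :
    ∃ δ : ℝ, ∀ s ∈ C, Tendsto (fun N : ℕ =>
      (Set.ncard {x : ℤ | |x| ≤ N ∧ x ≡ s.1 [ZMOD (d * s.2 : ℕ)] ∧ x ∈ A} : ℝ) /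
        (Set.ncard {x : ℤ | |x| ≤ N ∧ x ≡ s.1 [ZMOD (d * s.2 : ℕ)]} : ℝ)) atTop (𝓝 δ) := by
  let L : LData := ⟨d, hd, m, r, b, a, hm, hr, hfac, hb, C, fun s hs => (hC s hs).1, closed, comm,
    ρ, ρ_nonneg, ρ_sum, ρ_stat⟩
  exact Bd.leigh_all L hΛ n σ hσ0 hσn hσ hexp A hA

end Pool.Agent.Lib.MP_39d40e_nt.Old.BasinDensity
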