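import Pool.Agent.Lib.MP_39d40e_nt.InfF

namespace Pool.Agent.Results.MP_39d40e_nt.InfiniteClass

open Filter Pool.Agent.Lib.MP_39d40e_nt

theorem result : ∃ (d : ℕ) (_ : NeZero d) (m r : ZMod d → ℤ) (a : ZMod d → ℕ)
    (C : Set (ℕ × ℕ)) (ρ : ℕ × ℕ → ℝ),
    2 ≤ d ∧ (∀ i, m i ≠ 0) ∧ (∀ i, (r i : ZMod d) = i * m i) ∧ (∀ i, m i = a i) ∧
    (∀ i, ∃ n, a i ∣ d ^ n) ∧ C.Infinite ∧
    (∀ s ∈ C, s.1 < d * s.2 ∧ (∃ n, s.2 ∣ d ^ n) ∧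
      ∃ j < d, Relation.ReflTransGen (fun t t' => 0 < P d m r a t t') (j, 1) s) ∧
    (∀ s ∈ C, ∀ s', 0 < P d m r a s s' → s' ∈ C) ∧
    (∀ s ∈ C, ∀ s' ∈ C, Relation.ReflTransGen (fun t t' => 0 < P d m r a t t') s s') ∧
    (∀ s ∈ C, 0 < ρ s) ∧ (∀ s ∉ C, ρ s = 0) ∧ HasSum ρ 1 ∧
    (∀ s', HasSum (fun s => ρ s * P d m r a s s') (ρ s')) ∧
    ∏ i : ZMod d, |(m i : ℝ) / d| ^
      (∑' s : {s : ℕ × ℕ // s ∈ C ∧ (s.1 : ZMod d) = i}, ρ s) < 1 ∧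
    ∀ x : ℤ, (∃ s ∈ C, x ≡ s.1 [ZMOD (d * s.2 : ℕ)]) →
      Tendsto (fun n => |(T d m r)^[n] x|) atTop atTop := by
  obtain ⟨C, ρ, h0, h1, h2, h3, h4, h5, h6, h7, h8⟩ := Inf.main
  refine ⟨Inf.dd, inferInstance, fun i => (Inf.aa i : ℤ), Inf.rr, Inf.aa, C, ρ,
    by unfold Inf.dd; norm_num, fun i => Int.natCast_ne_zero.2 (Inf.aa_pos i).ne', Inf.rr_ok,
    fun _ => rfl, fun i => ⟨4, Inf.aa_dvd i⟩, Inf.infinite_of C h0 h2,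
    fun s hs => ⟨(h1 s hs).1.1, (h1 s hs).1.2.1, (h1 s hs).2⟩, h2, h3, h4, h5, h6, h7, h8, ?_⟩
  rintro x ⟨s, hs, hx⟩
  exact ((h1 s hs).1.2.2 x hx).tendsto

end Pool.Agent.Results.MP_39d40e_nt.InfiniteClass
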